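import Mathlib
import Pool.Agent.U735.SO.Stm

/-!
# Project SO, package PERF: a perfect invariant pairing is perfect on the invariants of a
semisimple representation
-/

set_option autoImplicit false

namespace Pool.Agent.U928.SO

universe v₀ w

theorem t_PERF : Pool.Agent.U735.SO.S_PERF.{v₀, w} := by
  intro E _ Γ V W _ _ _ _ _ _ ρ σ B hsurj hcompl hinv hl hr
  have hinjB : Function.Injective B := by
    rw [← LinearMap.ker_eq_bot, LinearMap.ker_eq_bot']
    intro x hx
    exact hl x fun y => by rw [hx]; rfl
  have hinjF : Function.Injective B.flip := by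
    rw [← LinearMap.ker_eq_bot, LinearMap.ker_eq_bot']
    intro y hy
    exact hr y fun x => by
      have := LinearMap.congr_fun hy x
      simpa using this
  have h1 : Module.finrank E V ≤ Module.finrank E (Module.Dual E W) :=
    LinearMap.finrank_le_finrank_of_injective hinjB
  have h2 : Module.finrank E W ≤ Module.finrank E (Module.Dual E V) :=
    LinearMap.finrank_le_finrank_of_injective hinjF
  rw [Subspace.dual_finrank_eq] at h1 h2
  have hsurjF : Function.Surjective B.flip := by
    refine (LinearMap.injective_iff_surjective_of_finrank_eq_finrank ?_).1 hinjF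
    rw [Subspace.dual_finrank_eq]
    exact le_antisymm h2 h1
  let U0 : Submodule E V := ⨅ s, LinearMap.ker (ρ s - 1)
  have hU0 : ∀ x, x ∈ U0 ↔ ∀ s, ρ s x = x := by
    intro x
    simp only [U0, Submodule.mem_iInf, LinearMap.mem_ker, LinearMap.sub_apply,
      Module.End.one_apply, sub_eq_zero]
  constructor
  · intro x hx h
    by_contra hx0
    obtain ⟨V1, hV1, hc⟩ := hcompl U0 (fun s z hz => by
      have h3 := (hU0 z).1 hz
      rw [h3 s]; exact hz)
    have hxV1 : x ∉ V1 := fun hxV1 =>
      hx0 ((Submodule.disjoint_def.1 hc.disjoint) x ((hU0 x).2 hx) hxV1)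
    obtain ⟨φ, hφx, hφ⟩ := Submodule.exists_le_ker_of_notMem hxV1
    have hφ1 : ∀ z ∈ V1, φ z = 0 := fun z hz => LinearMap.mem_ker.1 (hφ hz)
    have hφρ : ∀ s v, φ (ρ s v) = φ v := by
      intro s v
      obtain ⟨a, ha, b, hb, rfl⟩ := Submodule.mem_sup.1
        (show v ∈ U0 ⊔ V1 by rw [hc.sup_eq_top]; exact Submodule.mem_top)
      rw [map_add, map_add, map_add, (hU0 a).1 ha s, hφ1 b hb, hφ1 _ (hV1 s b hb)]
    obtain ⟨y, hy⟩ := hsurjF φ
    have hy' : ∀ z, B z y = φ z := fun z => by
      have := LinearMap.congr_fun hy z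
      simpa using this
    have hσ : ∀ s, σ s y = y := by
      intro s
      rw [← sub_eq_zero]
      apply hr
      intro z
      obtain ⟨z', rfl⟩ := hsurj s z
      rw [map_sub, hinv, hy', hy', hφρ, sub_self]
    have h3 := h y hσ
    rw [hy'] at h3
    exact hφx h3
  · intro y hy h
    let K : Submodule E V := LinearMap.ker (B.flip y)
    have hK : ∀ x, x ∈ K ↔ B x y = 0 := fun x => by
      simp only [K, LinearMap.mem_ker, LinearMap.flip_apply]
    obtain ⟨L, hL, hc⟩ := hcompl K (fun s z hz => by
      rw [hK] at hz ⊢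
      have h3 := hinv s z y
      rw [hy s] at h3
      rw [h3, hz])
    have hL0 : ∀ x ∈ L, x = 0 := by
      intro x hx
      have h3 : ∀ s, ρ s x = x := by
        intro s
        rw [← sub_eq_zero]
        apply (Submodule.disjoint_def.1 hc.disjoint) _ _ (L.sub_mem (hL s x hx) hx)
        rw [hK, map_sub, LinearMap.sub_apply]
        have h4 := hinv s x y
        rw [hy s] at h4
        rw [h4, sub_self]
      exact (Submodule.disjoint_def.1 hc.disjoint) x ((hK x).2 (h x h3)) hx
    apply hr
    intro x
    obtain ⟨a, ha, b, hb, rfl⟩ := Submodule.mem_sup.1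
      (show x ∈ K ⊔ L by rw [hc.sup_eq_top]; exact Submodule.mem_top)
    rw [hL0 b hb, add_zero]
    exact (hK a).1 ha

end Pool.Agent.U928.SO
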